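import Mathlib
import Pool.Agent.Helper844.DioBasic
import Pool.Agent.Helper844.DioBall

set_option autoImplicit false

namespace Pool.Agent.Helper844.Dio

open Dioph Function

theorem ball1_dioph {α : Type} (S : ℕ → (α → ℕ) → Prop)
    (h : Dioph {w : Option α → ℕ | S (w none) (w ∘ some)}) :
    Dioph {w : Option α → ℕ | ∀ k < w none, S k (w ∘ some)} := by
  obtain ⟨δ, _, p, hp⟩ := finite_dummies h
  obtain ⟨g, ⟨q, hq⟩, gmono, gb⟩ := majorant p
  have hS : ∀ k (v : α → ℕ), S k v ↔ ∃ t, p (Sum.elim (Option.elim' k v) t) = 0 := by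
    intro k v
    have := hp (Option.elim' k v)
    exact this
  have step : Dioph {w : Option α → ℕ | ∃ u c : ℕ, ∃ a : δ → ℕ,
      mprod (g (Sum.elim (Option.elim' (w none) (w ∘ some)) (fun _ => u)) + (w none) + u + 1).factorial (w none) ∣
        1 + (c + 1) * (g (Sum.elim (Option.elim' (w none) (w ∘ some)) (fun _ => u)) + (w none) + u + 1).factorial ∧
      (∀ i, mprod (g (Sum.elim (Option.elim' (w none) (w ∘ some)) (fun _ => u)) + (w none) + u + 1).factorial (w none) ∣
        (a i).descFactorial (u + 1)) ∧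
      mprod (g (Sum.elim (Option.elim' (w none) (w ∘ some)) (fun _ => u)) + (w none) + u + 1).factorial (w none) ∣
        (p (Sum.elim (Option.elim' c (w ∘ some)) a)).natAbs} := by
    apply ex_dioph'
    apply ex_dioph'
    apply exfun_dioph
    -- context
    have dY : DiophFn (fun x : Option (Option (Option α)) ⊕ δ → ℕ => x (Sum.inl (some (some none)))) :=
      proj_dioph _
    have du : DiophFn (fun x : Option (Option (Option α)) ⊕ δ → ℕ => x (Sum.inl (some none))) :=
      proj_dioph _
    have dc : DiophFn (fun x : Option (Option (Option α)) ⊕ δ → ℕ => x (Sum.inl none)) :=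
      proj_dioph _
    have dg : DiophFn (fun x : Option (Option (Option α)) ⊕ δ → ℕ =>
        g (Sum.elim (Option.elim' (x (Sum.inl (some (some none)))) (x ∘ Sum.inl ∘ some ∘ some ∘ some))
          (fun _ => x (Sum.inl (some none))))) := by
      refine congr_fn (abs_poly_dioph (q.map (Sum.elim (Option.elim' (Sum.inl (some (some none)))
        (fun a => Sum.inl (some (some (some a))))) (fun _ => Sum.inl (some none))))) ?_
      intro x
      rw [Poly.map_apply, ← hq, Int.natAbs_natCast]
      congr 1
      ext i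
      rcases i with (_ | i) | i <;> rfl
    have dp : DiophFn (fun x : Option (Option (Option α)) ⊕ δ → ℕ =>
        (p (Sum.elim (Option.elim' (x (Sum.inl none)) (x ∘ Sum.inl ∘ some ∘ some ∘ some))
          (x ∘ Sum.inr))).natAbs) := by
      refine congr_fn (abs_poly_dioph (p.map (Sum.elim (Option.elim' (Sum.inl none)
        (fun a => Sum.inl (some (some (some a))))) Sum.inr))) ?_
      intro x
      rw [Poly.map_apply]
      congr 2
      ext i
      rcases i with (_ | i) | i <;> rfl
    have dQ := add_dioph (add_dioph (add_dioph dg dY) du) (const' 1)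
    have dT := factorial_dioph dQ
    have dM := mprod_dioph dT dY (fun _ => Nat.factorial_pos _)
    have d1 := dvd_dioph dM (add_dioph (const' 1) (mul_dioph (add_dioph dc (const' 1)) dT))
    have d2 : ∀ i : δ, _ := fun i => dvd_dioph dM (descFactorial_dioph (proj_dioph (Sum.inr i : Option (Option (Option α)) ⊕ δ)) (add_dioph du (const' 1)))
    have d3 := dvd_dioph dM dp
    exact and_dioph d1 (and_dioph (forall_dioph _ d2) d3)
  refine Dioph.ext step fun w => ?_
  have := bq_core p g gmono gb (w ∘ some) (w none)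
  simp only [Set.mem_ofPred_eq]
  rw [← this]
  exact forall_congr' fun k => forall_congr' fun _ => (hS k _).symm

theorem ball_dioph {α : Type} {f : (α → ℕ) → ℕ} (S : ℕ → (α → ℕ) → Prop)
    (df : DiophFn f) (h : Dioph {w : Option α → ℕ | S (w none) (w ∘ some)}) :
    Dioph {v : α → ℕ | ∀ k < f v, S k v} := by
  have h1 : Dioph {w : Option α → ℕ | w none = f (w ∘ some) ∧ ∀ k < w none, S k (w ∘ some)} :=
    and_dioph (eq_dioph (proj_dioph none) (fn_lift df)) (ball1_dioph S h)
  have h2 := ex_dioph' (fun Y (v : α → ℕ) => Y = f v ∧ ∀ k < Y, S k v) h1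
  exact Dioph.ext h2 fun v => by simp

section pairing
variable {α : Type} {f g h : (α → ℕ) → ℕ}

theorem not_lt_dioph' (df : DiophFn f) (dg : DiophFn g) : Dioph {v | ¬ f v < g v} :=
  Dioph.ext (le_dioph dg df) fun v => by simp

theorem pair_dioph (df : DiophFn f) (dg : DiophFn g) : DiophFn fun v => Nat.pair (f v) (g v) := by
  have : Dioph {w : Option α → ℕ | ((f (w ∘ some) < g (w ∘ some)) ∧
      g (w ∘ some) * g (w ∘ some) + f (w ∘ some) = w none) ∨
      ((g (w ∘ some) ≤ f (w ∘ some)) ∧ f (w ∘ some) * f (w ∘ some) + f (w ∘ some) + g (w ∘ some) = w none)} := by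
    have df' := fn_lift df
    have dg' := fn_lift dg
    exact or_dioph (and_dioph (lt_dioph df' dg') (eq_dioph (add_dioph (mul_dioph dg' dg') df') fn_none))
      (and_dioph (le_dioph dg' df') (eq_dioph (add_dioph (add_dioph (mul_dioph df' df') df') dg') fn_none))
  refine Dioph.ext this fun w => ?_
  simp only [Set.mem_ofPred_eq, Nat.pair]
  split_ifs with hlt
  · constructor
    · rintro (⟨_, h⟩ | ⟨h, _⟩)
      · exact h
      · omega
    · intro h; exact Or.inl ⟨hlt, h⟩
  · constructor
    · rintro (⟨h, _⟩ | ⟨_, h⟩)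
      · omega
      · exact h
    · intro h; exact Or.inr ⟨by omega, h⟩

theorem unpair1_dioph (df : DiophFn f) : DiophFn fun v => (f v).unpair.1 := by
  have : Dioph {w : Option α → ℕ | ∃ y, Nat.pair (w none) y = f (w ∘ some)} := by
    apply ex_dioph'
    exact eq_dioph (pair_dioph (proj_dioph (some none)) fn_none) (fn_lift (fn_lift df))
  refine Dioph.ext this fun w => ?_
  simp only [Set.mem_ofPred_eq]
  constructor
  · rintro ⟨y, hy⟩; rw [← hy]; simp
  · intro h; exact ⟨(f (w ∘ some)).unpair.2, by rw [← h]; simp⟩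

theorem unpair2_dioph (df : DiophFn f) : DiophFn fun v => (f v).unpair.2 := by
  have : Dioph {w : Option α → ℕ | ∃ y, Nat.pair y (w none) = f (w ∘ some)} := by
    apply ex_dioph'
    exact eq_dioph (pair_dioph fn_none (proj_dioph (some none))) (fn_lift (fn_lift df))
  refine Dioph.ext this fun w => ?_
  simp only [Set.mem_ofPred_eq]
  constructor
  · rintro ⟨y, hy⟩; rw [← hy]; simp
  · intro h; exact ⟨(f (w ∘ some)).unpair.1, by rw [← h]; simp⟩

theorem beta_dioph (df : DiophFn f) (dg : DiophFn g) : DiophFn fun v => Nat.beta (f v) (g v) := by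
  exact mod_dioph (unpair1_dioph df)
    (add_dioph (mul_dioph (add_dioph dg (const' 1)) (unpair2_dioph df)) (const' 1))

end pairing

/-- a partial function `ℕ →. ℕ` has Diophantine graph, in every context -/
def DR (f : ℕ →. ℕ) : Prop :=
  ∀ {α : Type} {a b : (α → ℕ) → ℕ}, DiophFn a → DiophFn b → Dioph {v : α → ℕ | b v ∈ f (a v)}

theorem DR.of_fn {f : ℕ → ℕ} (h : ∀ {α : Type} {a : (α → ℕ) → ℕ}, DiophFn a → DiophFn fun v => f (a v)) :
    DR (f : ℕ →. ℕ) := by
  intro α a b da db
  exact Dioph.ext (eq_dioph db (h da)) fun v => by simp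

theorem DR.zero : DR (pure 0) := by
  intro α a b da db
  refine Dioph.ext (eq_dioph db (const' 0)) fun v => ?_
  show b v = 0 ↔ b v ∈ Part.some 0
  simp

/-- existence of sequences through Gödel's beta function -/
theorem exists_beta (n : ℕ) (s : ℕ → ℕ) : ∃ c, ∀ i ≤ n, Nat.beta c i = s i := by
  refine ⟨Nat.unbeta (List.ofFn (fun i : Fin (n + 1) => s i)), fun i hi => ?_⟩
  have := Nat.beta_unbeta_coe (List.ofFn (fun i : Fin (n + 1) => s i)) ⟨i, by simp; omega⟩
  simpa [-List.ofFn_succ] using this

theorem DR.of_partrec {f : ℕ →. ℕ} (hf : Nat.Partrec f) : DR f := by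
  induction hf with
  | zero => exact DR.zero
  | succ => exact DR.of_fn (fun da => add_dioph da (const' 1))
  | left => exact DR.of_fn (fun da => unpair1_dioph da)
  | right => exact DR.of_fn (fun da => unpair2_dioph da)
  | @pair f g _ _ hf hg =>
    intro α a b da db
    have : Dioph {v : α → ℕ | ∃ x, ∃ y, x ∈ f (a v) ∧ y ∈ g (a v) ∧ b v = Nat.pair x y} := by
      apply ex_dioph'
      apply ex_dioph'
      refine and_dioph (hf (fn_lift (fn_lift da)) (proj_dioph (some none)))
        (and_dioph (hg (fn_lift (fn_lift da)) (proj_dioph none)) ?_)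
      exact eq_dioph (fn_lift (fn_lift db)) (pair_dioph (proj_dioph (some none)) (proj_dioph none))
    refine Dioph.ext this fun v => ?_
    simp only [Set.mem_ofPred_eq, Seq.seq, Part.map_eq_map, Part.bind_eq_bind, Part.mem_bind_iff,
      Part.mem_map_iff]
    constructor
    · rintro ⟨x, y, hx, hy, e⟩
      exact ⟨_, ⟨x, hx, rfl⟩, y, hy, e.symm⟩
    · rintro ⟨_, ⟨x, hx, rfl⟩, y, hy, e⟩
      exact ⟨x, y, hx, hy, e.symm⟩
  | @comp f g _ _ hf hg =>
    intro α a b da db
    have : Dioph {v : α → ℕ | ∃ x, x ∈ g (a v) ∧ b v ∈ f x} := by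
      apply ex_dioph'
      exact and_dioph (hg (fn_lift da) (proj_dioph none)) (hf (proj_dioph none) (fn_lift db))
    refine Dioph.ext this fun v => ?_
    exact Part.mem_bind_iff.symm
  | @prec f g _ _ hf hg =>
    intro α a b da db
    have : Dioph {v : α → ℕ | ∃ c, Nat.beta c 0 ∈ f (a v).unpair.1 ∧
        (∀ y < (a v).unpair.2, Nat.beta c (y + 1) ∈ g (Nat.pair (a v).unpair.1 (Nat.pair y (Nat.beta c y)))) ∧
        Nat.beta c (a v).unpair.2 = b v} := by
      apply ex_dioph'
      refine and_dioph (hf (unpair1_dioph (fn_lift da)) (beta_dioph fn_none (const' 0)))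
        (and_dioph ?_ (eq_dioph (beta_dioph fn_none (unpair2_dioph (fn_lift da))) (fn_lift db)))
      refine ball_dioph (f := fun w : Option α → ℕ => (a (w ∘ some)).unpair.2)
        (fun y (w : Option α → ℕ) => Nat.beta (w none) (y + 1) ∈
          g (Nat.pair (a (w ∘ some)).unpair.1 (Nat.pair y (Nat.beta (w none) y))))
        (unpair2_dioph (fn_lift da)) ?_
      have dc : DiophFn (fun w : Option (Option α) → ℕ => w (some none)) := proj_dioph (some none)
      exact hg (pair_dioph (unpair1_dioph (fn_lift (fn_lift da))) (pair_dioph fn_none (beta_dioph dc fn_none)))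
        (beta_dioph dc (add_dioph fn_none (const' 1)))
    refine Dioph.ext this fun v => ?_
    simp only [Set.mem_ofPred_eq, Nat.unpaired]
    generalize (a v).unpair.1 = x
    generalize (a v).unpair.2 = n
    generalize b v = z
    constructor
    · rintro ⟨c, h0, hs, rfl⟩
      have : ∀ m ≤ n, Nat.beta c m ∈ (Nat.rec (f x) (fun y IH => IH.bind fun i => g (Nat.pair x (Nat.pair y i))) m : Part ℕ) := by
        intro m
        induction m with
        | zero => intro _; exact h0
        | succ m ih =>
          intro hm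
          exact Part.mem_bind_iff.2 ⟨_, ih (by omega), hs m (by omega)⟩
      exact this n le_rfl
    · intro hz
      have key : ∀ n z, z ∈ (Nat.rec (f x) (fun y IH => IH.bind fun i => g (Nat.pair x (Nat.pair y i))) n : Part ℕ) →
          ∃ s : ℕ → ℕ, s 0 ∈ f x ∧ (∀ y < n, s (y + 1) ∈ g (Nat.pair x (Nat.pair y (s y)))) ∧ s n = z := by
        intro n
        induction n with
        | zero => intro z hz; exact ⟨fun _ => z, hz, fun y hy => by omega, rfl⟩
        | succ n ih =>
          intro z hz
          obtain ⟨i, hi, hz'⟩ := Part.mem_bind_iff.1 hz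
          obtain ⟨s, s0, ss, sn⟩ := ih i hi
          refine ⟨fun m => if m ≤ n then s m else z, ?_, ?_, ?_⟩
          · simpa using s0
          · intro y hy
            rcases Nat.lt_or_ge y n with h | h
            · have := ss y h
              simp only [show y + 1 ≤ n by omega, if_true, show y ≤ n by omega]
              exact this
            · have hyn : y = n := by omega
              subst hyn
              simp only [show ¬ (y + 1 ≤ y) by omega, if_false, le_refl, if_true]
              rw [sn]; exact hz'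
          · simp
      obtain ⟨s, s0, ss, sn⟩ := key n z hz
      obtain ⟨c, hc⟩ := exists_beta n s
      refine ⟨c, ?_, ?_, ?_⟩
      · rw [hc 0 (by omega)]; exact s0
      · intro y hy
        rw [hc _ (by omega), hc _ (by omega)]
        exact ss y hy
      · rw [hc n le_rfl]; exact sn
  | @rfind f _ hf =>
    intro α a b da db
    have : Dioph {v : α → ℕ | 0 ∈ f (Nat.pair (a v) (b v)) ∧
        ∀ k < b v, ∃ z, z ∈ f (Nat.pair (a v) k) ∧ 0 < z} := by
      refine and_dioph (hf (pair_dioph da db) (const' 0)) ?_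
      refine ball_dioph (fun k (v : α → ℕ) => ∃ z, z ∈ f (Nat.pair (a v) k) ∧ 0 < z) db ?_
      apply ex_dioph'
      exact and_dioph (hf (pair_dioph (fn_lift (fn_lift da)) (proj_dioph (some none))) fn_none)
        (lt_dioph (const' 0) fn_none)
    refine Dioph.ext this fun v => ?_
    refine Iff.trans ?_ (Nat.mem_rfind (p := fun n => (f (Nat.pair (a v) n)).map
      (fun m => decide (m = 0))) (n := b v)).symm
    simp only [Part.mem_map_iff, decide_eq_true_eq, decide_eq_false_iff_not]
    constructor
    · rintro ⟨h0, hk⟩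
      refine ⟨⟨0, h0, rfl⟩, fun {m} hm => ?_⟩
      obtain ⟨z, hz, hz0⟩ := hk m hm
      exact ⟨z, hz, by omega⟩
    · rintro ⟨⟨z, h0, hz⟩, hk⟩
      subst hz
      refine ⟨h0, fun k hk' => ?_⟩
      obtain ⟨z, hz, hz0⟩ := hk hk'
      exact ⟨z, hz, by omega⟩

/-- **DPRM theorem**: recursively enumerable sets of natural numbers are Diophantine. -/
theorem dprm {p : ℕ → Prop} (hp : REPred p) : Dioph {v : Unit → ℕ | p (v ())} := by
  have h1 : Nat.Partrec (fun n => (Part.assert (p n) fun _ => Part.some ()).map (fun _ => 0)) := by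
    have := hp
    unfold REPred at this
    have h2 := Partrec.map this ((Computable.const (0 : ℕ)).to₂ (α := ℕ) (β := Unit))
    exact Partrec.nat_iff.1 h2
  have h2 := DR.of_partrec h1 (α := Unit) (proj_dioph ()) (const' 0)
  refine Dioph.ext h2 fun v => ?_
  simp [Part.mem_map_iff]

end Pool.Agent.Helper844.Dio

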