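import Mathlib

set_option autoImplicit false

namespace Pool.Agent.Helper844.HeisG

open scoped commutatorElement

/-- the integral Heisenberg group -/
@[ext] structure Heis where
  a : ℤ
  b : ℤ
  c : ℤ

namespace Heis

instance : Mul Heis := ⟨fun x y => ⟨x.a + y.a, x.b + y.b, x.c + y.c + x.a * y.b⟩⟩
instance : One Heis := ⟨⟨0, 0, 0⟩⟩
instance : Inv Heis := ⟨fun x => ⟨-x.a, -x.b, -x.c + x.a * x.b⟩⟩

@[simp] theorem mul_a (x y : Heis) : (x * y).a = x.a + y.a := rfl
@[simp] theorem mul_b (x y : Heis) : (x * y).b = x.b + y.b := rfl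
@[simp] theorem mul_c (x y : Heis) : (x * y).c = x.c + y.c + x.a * y.b := rfl
@[simp] theorem one_a : (1 : Heis).a = 0 := rfl
@[simp] theorem one_b : (1 : Heis).b = 0 := rfl
@[simp] theorem one_c : (1 : Heis).c = 0 := rfl
@[simp] theorem inv_a (x : Heis) : (x⁻¹).a = -x.a := rfl
@[simp] theorem inv_b (x : Heis) : (x⁻¹).b = -x.b := rfl
@[simp] theorem inv_c (x : Heis) : (x⁻¹).c = -x.c + x.a * x.b := rfl

instance : Group Heis := Group.ofLeftAxioms
  (by intro x y z; ext <;> simp <;> ring)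
  (by intro x; ext <;> simp)
  (by intro x; ext <;> simp)

theorem comm_eq (x y : Heis) : ⁅x, y⁆ = ⟨0, 0, x.a * y.b - y.a * x.b⟩ := by
  rw [commutatorElement_def]
  ext
  · simp
  · simp
  · simp
    ring

theorem class2 (x y z : Heis) : ⁅⁅x, y⁆, z⁆ = 1 := by
  rw [comm_eq, comm_eq]
  ext <;> simp

theorem zpow_central (c : ℤ) (n : ℤ) : (⟨0, 0, c⟩ : Heis) ^ n = ⟨0, 0, n * c⟩ := by
  have hn : ∀ n : ℕ, (⟨0, 0, c⟩ : Heis) ^ n = ⟨0, 0, n * c⟩ := by
    intro n
    induction n with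
    | zero => ext <;> simp
    | succ n ih =>
      rw [pow_succ, ih]
      ext
      · simp
      · simp
      · simp
        ring
  obtain ⟨m, rfl | rfl⟩ := n.eq_nat_or_neg
  · rw [zpow_natCast, hn]
  · rw [zpow_neg, zpow_natCast, hn]
    ext <;> simp

def projA : Heis →* Multiplicative ℤ where
  toFun x := Multiplicative.ofAdd x.a
  map_one' := rfl
  map_mul' _ _ := rfl

def projB : Heis →* Multiplicative ℤ where
  toFun x := Multiplicative.ofAdd x.b
  map_one' := rfl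
  map_mul' _ _ := rfl

theorem pow_a (x : Heis) (n : ℕ) : (x ^ n).a = n * x.a := by
  have := congrArg Multiplicative.toAdd (map_pow projA x n)
  simpa [projA] using this

theorem pow_b (x : Heis) (n : ℕ) : (x ^ n).b = n * x.b := by
  have := congrArg Multiplicative.toAdd (map_pow projB x n)
  simpa [projB] using this

end Heis

section class2
variable {K : Type*} [Group K] (h k : K)

theorem zpow_comm_zpow (hz1 : ∀ x : K, ⁅h, k⁆ * x = x * ⁅h, k⁆) (a b : ℤ) :
    h ^ a * k ^ b = k ^ b * h ^ a * ⁅h, k⁆ ^ (a * b) := by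
  set z := ⁅h, k⁆ with hz
  have cz : ∀ x : K, Commute z x := fun x => hz1 x
  have e1 : h * k * h⁻¹ = z * k := by
    rw [hz, commutatorElement_def]
    group
  have e2 : h * k ^ b * h⁻¹ = z ^ b * k ^ b := by
    rw [← conj_zpow, e1, (cz k).mul_zpow]
  have e3 : (k ^ b)⁻¹ * h * k ^ b = z ^ b * h := by
    have : h * k ^ b = z ^ b * k ^ b * h := by
      rw [← e2]; group
    calc (k ^ b)⁻¹ * h * k ^ b = (k ^ b)⁻¹ * (h * k ^ b) := by rw [mul_assoc]
      _ = (k ^ b)⁻¹ * (z ^ b * k ^ b * h) := by rw [this]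
      _ = (k ^ b)⁻¹ * (k ^ b * z ^ b * h) := by rw [((cz (k ^ b)).zpow_left b).eq]
      _ = z ^ b * h := by rw [mul_assoc, inv_mul_cancel_left]
  have e4 : (k ^ b)⁻¹ * h ^ a * k ^ b = z ^ (b * a) * h ^ a := by
    have := conj_zpow (a := (k ^ b)⁻¹) (b := h) (i := a)
    rw [inv_inv, e3, ((cz h).zpow_left b).mul_zpow, ← zpow_mul] at this
    exact this.symm
  have e5 : h ^ a * k ^ b = k ^ b * (z ^ (b * a) * h ^ a) := by
    rw [← e4]; group
  rw [e5, ((cz (h ^ a)).zpow_left (b * a)).eq, mul_comm b a, mul_assoc]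

/-- the homomorphism from the Heisenberg group given by two elements with central commutator -/
def fromHeis (hz1 : ∀ x : K, ⁅h, k⁆ * x = x * ⁅h, k⁆) : Heis →* K where
  toFun x := k ^ x.b * h ^ x.a * ⁅h, k⁆ ^ x.c
  map_one' := by simp
  map_mul' x y := by
    have cz : ∀ x : K, Commute ⁅h, k⁆ x := fun x => hz1 x
    simp only [Heis.mul_a, Heis.mul_b, Heis.mul_c]
    have h1 := zpow_comm_zpow h k hz1 x.a y.b
    calc k ^ (x.b + y.b) * h ^ (x.a + y.a) * ⁅h, k⁆ ^ (x.c + y.c + x.a * y.b)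
        = k ^ x.b * (k ^ y.b * h ^ x.a * ⁅h, k⁆ ^ (x.a * y.b)) * h ^ y.a *
            (⁅h, k⁆ ^ x.c * ⁅h, k⁆ ^ y.c) := by
          rw [zpow_add, zpow_add, zpow_add, zpow_add]
          have c1 := ((cz (h ^ y.a)).zpow_left (x.a * y.b)).eq
          have c2 := ((cz (⁅h, k⁆ ^ x.c * ⁅h, k⁆ ^ y.c)).zpow_left (x.a * y.b)).eq
          simp only [mul_assoc]
          simp only [mul_assoc] at c2
          rw [← c2]
          simp only [← mul_assoc]
          congr 2
          simp only [mul_assoc]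
          rw [c1]
      _ = k ^ x.b * (h ^ x.a * k ^ y.b) * h ^ y.a * (⁅h, k⁆ ^ x.c * ⁅h, k⁆ ^ y.c) := by rw [h1]
      _ = k ^ x.b * h ^ x.a * ⁅h, k⁆ ^ x.c * (k ^ y.b * h ^ y.a * ⁅h, k⁆ ^ y.c) := by
          have c1 := ((cz (k ^ y.b * h ^ y.a)).zpow_left x.c).eq
          simp only [mul_assoc]
          simp only [mul_assoc] at c1
          congr 2
          have c3 : ⁅h, k⁆ ^ x.c * (k ^ y.b * (h ^ y.a * ⁅h, k⁆ ^ y.c)) =
              (⁅h, k⁆ ^ x.c * (k ^ y.b * h ^ y.a)) * ⁅h, k⁆ ^ y.c := by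
            simp only [mul_assoc]
          rw [c3, c1]
          simp only [mul_assoc]

end class2

end Pool.Agent.Helper844.HeisG
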