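import Mathlib
import Pool.Agent.Helper844.Sys
import Pool.Agent.Helper844.HeisG

set_option autoImplicit false

namespace Pool.Agent.Helper844.Ret

open scoped commutatorElement
open Pool.Agent.Helper844.Sys Pool.Agent.Helper844.HeisG

/-- generators: `A`, `S`, `T` and `P v`, `Q v` for each variable `v` -/
abbrev Gen (V : Type) := Fin 3 ⊕ (V ⊕ V)

variable {V : Type}

def gA : FreeGroup (Gen V) := FreeGroup.of (Sum.inl 0)
def gS : FreeGroup (Gen V) := FreeGroup.of (Sum.inl 1)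
def gT : FreeGroup (Gen V) := FreeGroup.of (Sum.inl 2)
def gP (v : V) : FreeGroup (Gen V) := FreeGroup.of (Sum.inr (Sum.inl v))
def gQ (v : V) : FreeGroup (Gen V) := FreeGroup.of (Sum.inr (Sum.inr v))

/-- the relator of an equation -/
def rel (q : Eqn V) : FreeGroup (Gen V) :=
  ⁅gP q.i, gQ q.j⁆ ^ q.e * ⁅gP q.k, (gT : FreeGroup (Gen V))⁆ ^ q.a * ⁅gP q.l, (gT : FreeGroup (Gen V))⁆ ^ q.b * ⁅gP q.m, (gT : FreeGroup (Gen V))⁆ ^ q.c *
    ⁅(gS : FreeGroup (Gen V)), (gT : FreeGroup (Gen V))⁆ ^ q.d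

/-- the relators -/
inductive IsRel (f : V) (L : List (Eqn V)) : FreeGroup (Gen V) → Prop
  | class2 (x y z : FreeGroup (Gen V)) : IsRel f L ⁅⁅x, y⁆, z⁆
  | AS : IsRel f L ⁅(gA : FreeGroup (Gen V)), (gS : FreeGroup (Gen V))⁆
  | PA (v : V) : IsRel f L ⁅gP v, (gA : FreeGroup (Gen V))⁆
  | PS (v : V) : IsRel f L ⁅gP v, (gS : FreeGroup (Gen V))⁆
  | QT (v : V) : IsRel f L ⁅gQ v, (gT : FreeGroup (Gen V))⁆
  | link (v : V) : IsRel f L (⁅gP v, (gT : FreeGroup (Gen V))⁆ * ⁅(gS : FreeGroup (Gen V)), gQ v⁆⁻¹)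
  | linkA : IsRel f L (⁅(gA : FreeGroup (Gen V)), (gT : FreeGroup (Gen V))⁆ * ⁅(gS : FreeGroup (Gen V)), gQ f⁆⁻¹)
  | eqn (q : Eqn V) (hq : q ∈ L) : IsRel f L (rel q)

def rels (f : V) (L : List (Eqn V)) : Set (FreeGroup (Gen V)) := {x | IsRel f L x}

/-- the nilpotent group attached to a system -/
abbrev Grp (f : V) (L : List (Eqn V)) : Type := PresentedGroup (rels f L)

variable {f : V} {L : List (Eqn V)}

theorem grp_class2 (x y z : Grp f L) : ⁅⁅x, y⁆, z⁆ = 1 := by
  obtain ⟨x, rfl⟩ := PresentedGroup.mk_surjective (rels f L) x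
  obtain ⟨y, rfl⟩ := PresentedGroup.mk_surjective (rels f L) y
  obtain ⟨z, rfl⟩ := PresentedGroup.mk_surjective (rels f L) z
  rw [← map_commutatorElement, ← map_commutatorElement]
  exact PresentedGroup.one_of_mem (IsRel.class2 x y z)

theorem grp_nilpotent : Group.IsNilpotent (Grp f L) := by
  refine ⟨2, ?_⟩
  rw [Subgroup.eq_top_iff']
  intro x
  rw [Subgroup.mem_upperCentralSeries_succ_iff]
  intro y
  rw [Subgroup.mem_upperCentralSeries_succ_iff]
  intro z
  rw [Subgroup.upperCentralSeries_zero, Subgroup.mem_bot]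
  exact grp_class2 x y z

/-- images of the generators for a solution -/
def img (f : V) (x : V → ℤ) : Gen V → Heis
  | Sum.inl 0 => ⟨x f, 0, 0⟩
  | Sum.inl 1 => ⟨1, 0, 0⟩
  | Sum.inl 2 => ⟨0, 1, 0⟩
  | Sum.inr (Sum.inl v) => ⟨x v, 0, 0⟩
  | Sum.inr (Sum.inr v) => ⟨0, x v, 0⟩

theorem map_rel (Θ : FreeGroup (Gen V) →* Heis) (q : Eqn V) : Θ (rel q) = ⟨0, 0,
    q.e * ((Θ (gP q.i)).a * (Θ (gQ q.j)).b - (Θ (gQ q.j)).a * (Θ (gP q.i)).b) +
    q.a * ((Θ (gP q.k)).a * (Θ gT).b - (Θ gT).a * (Θ (gP q.k)).b) +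
    q.b * ((Θ (gP q.l)).a * (Θ gT).b - (Θ gT).a * (Θ (gP q.l)).b) +
    q.c * ((Θ (gP q.m)).a * (Θ gT).b - (Θ gT).a * (Θ (gP q.m)).b) +
    q.d * ((Θ gS).a * (Θ gT).b - (Θ gT).a * (Θ gS).b)⟩ := by
  simp only [rel, map_mul, map_zpow, map_commutatorElement, Heis.comm_eq, Heis.zpow_central]
  ext
  · simp
  · simp
  · simp

theorem img_rel (x : V → ℤ) (hx : ∀ q ∈ L, q.Holds x) :
    ∀ r ∈ rels f L, FreeGroup.lift (img f x) r = 1 := by
  intro r hr
  have hA : FreeGroup.lift (img f x) gA = ⟨x f, 0, 0⟩ := by simp [gA, img]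
  have hS : FreeGroup.lift (img f x) gS = ⟨1, 0, 0⟩ := by simp [gS, img]
  have hT : FreeGroup.lift (img f x) gT = ⟨0, 1, 0⟩ := by simp [gT, img]
  have hP : ∀ v, FreeGroup.lift (img f x) (gP v) = ⟨x v, 0, 0⟩ := by
    intro v; simp [gP, img]
  have hQ : ∀ v, FreeGroup.lift (img f x) (gQ v) = ⟨0, x v, 0⟩ := by
    intro v; simp [gQ, img]
  cases hr with
  | class2 a b c => rw [map_commutatorElement, map_commutatorElement, Heis.class2]
  | AS => rw [map_commutatorElement, hA, hS, Heis.comm_eq]; ext <;> simp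
  | PA v => rw [map_commutatorElement, hA, hP, Heis.comm_eq]; ext <;> simp
  | PS v => rw [map_commutatorElement, hS, hP, Heis.comm_eq]; ext <;> simp
  | QT v => rw [map_commutatorElement, hT, hQ, Heis.comm_eq]; ext <;> simp
  | link v =>
    rw [map_mul, map_inv, map_commutatorElement, map_commutatorElement, hP, hT, hS, hQ,
      Heis.comm_eq, Heis.comm_eq]
    ext <;> simp
  | linkA =>
    rw [map_mul, map_inv, map_commutatorElement, map_commutatorElement, hA, hT, hS, hQ,
      Heis.comm_eq, Heis.comm_eq]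
    ext <;> simp
  | eqn q hq =>
    rw [map_rel, hS, hT, hP, hP, hP, hP, hQ]
    have := hx q hq
    simp only [Eqn.Holds] at this
    ext
    · simp
    · simp
    · simp
      linarith

/-- the homomorphism to the Heisenberg group given by a solution -/
def psi (x : V → ℤ) (hx : ∀ q ∈ L, q.Holds x) : Grp f L →* Heis :=
  PresentedGroup.toGroup (img_rel (f := f) x hx)

def mkG (f : V) (L : List (Eqn V)) : FreeGroup (Gen V) →* Grp f L := PresentedGroup.mk (rels f L)

/-- the first generator of the subgroup -/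
def hel (f : V) (L : List (Eqn V)) (n : ℕ) : Grp f L := mkG f L gA * mkG f L gS ^ (4 * n)

/-- the subgroup in question -/
def Hn (f : V) (L : List (Eqn V)) (n : ℕ) : Subgroup (Grp f L) :=
  Subgroup.closure {hel f L n, mkG f L gT}

theorem psi_mk (x : V → ℤ) (hx : ∀ q ∈ L, q.Holds x) (w : FreeGroup (Gen V)) :
    psi x hx (mkG f L w) = FreeGroup.lift (img f x) w := rfl

theorem retract_of_solution (n : ℕ) (x : V → ℤ) (hx : ∀ q ∈ L, q.Holds x)
    (hf : x f = 1 - 4 * n) : ∃ r : Grp f L →* Grp f L, r.range = Hn f L n ∧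
      ∀ h ∈ Hn f L n, r h = h := by
  have hcen : ∀ y : Grp f L, ⁅hel f L n, mkG f L gT⁆ * y = y * ⁅hel f L n, mkG f L gT⁆ := by
    intro y
    have := grp_class2 (hel f L n) (mkG f L gT) y
    rw [commutatorElement_eq_one_iff_mul_comm] at this
    exact this
  let Γ := fromHeis (hel f L n) (mkG f L gT) hcen
  let r : Grp f L →* Grp f L := Γ.comp (psi x hx)
  have hΓ : ∀ y, Γ y ∈ Hn f L n := by
    intro y
    have h1 : hel f L n ∈ Hn f L n := Subgroup.subset_closure (by simp)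
    have h2 : mkG f L gT ∈ Hn f L n := Subgroup.subset_closure (by simp)
    change mkG f L gT ^ y.b * hel f L n ^ y.a * ⁅hel f L n, mkG f L gT⁆ ^ y.c ∈ Hn f L n
    rw [commutatorElement_def]
    exact mul_mem (mul_mem (zpow_mem h2 _) (zpow_mem h1 _))
      (zpow_mem (mul_mem (mul_mem (mul_mem h1 h2) (inv_mem h1)) (inv_mem h2)) _)
  have hrT : r (mkG f L gT) = mkG f L gT := by
    change Γ (psi x hx (mkG f L gT)) = _
    rw [psi_mk]
    have : FreeGroup.lift (img f x) gT = ⟨0, 1, 0⟩ := by simp [gT, img]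
    rw [this]
    simp [Γ, fromHeis]
  have hrA : r (mkG f L gA) = hel f L n ^ (x f) := by
    change Γ (psi x hx (mkG f L gA)) = _
    rw [psi_mk]
    have : FreeGroup.lift (img f x) gA = ⟨x f, 0, 0⟩ := by simp [gA, img]
    rw [this]
    simp [Γ, fromHeis]
  have hrS : r (mkG f L gS) = hel f L n := by
    change Γ (psi x hx (mkG f L gS)) = _
    rw [psi_mk]
    have : FreeGroup.lift (img f x) gS = ⟨1, 0, 0⟩ := by simp [gS, img]
    rw [this]
    simp [Γ, fromHeis]
  have hrh : r (hel f L n) = hel f L n := by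
    have : r (hel f L n) = r (mkG f L gA) * r (mkG f L gS) ^ (4 * n) := by
      rw [← map_pow, ← map_mul]; rfl
    rw [this, hrA, hrS, hf, ← zpow_natCast, ← zpow_add]
    have : (1 - 4 * (n : ℤ) + ((4 * n : ℕ) : ℤ)) = 1 := by push_cast; ring
    rw [this, zpow_one]
  have hfix : ∀ h ∈ Hn f L n, r h = h := by
    intro h hh
    have : Hn f L n ≤ MonoidHom.eqLocus r (MonoidHom.id _) := by
      rw [Hn, Subgroup.closure_le]
      rintro y (rfl | rfl)
      · exact hrh
      · exact hrT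
    exact this hh
  refine ⟨r, ?_, hfix⟩
  apply le_antisymm
  · rintro _ ⟨y, rfl⟩
    exact hΓ _
  · intro h hh
    exact ⟨h, hfix h hh⟩

theorem solution_of_retract (n n₀ : ℕ) (x₀ : V → ℤ) (hx₀ : ∀ q ∈ L, q.Holds x₀)
    (hf₀ : x₀ f = 1 - 4 * n₀) (r : Grp f L →* Grp f L) (hr : r.range = Hn f L n)
    (hfix : ∀ h ∈ Hn f L n, r h = h) :
    ∃ x : V → ℤ, (x f = 1 - 4 * n ∨ x f = - 1 - 4 * n) ∧ ∀ q ∈ L, q.Holds x := by
  let Θ : FreeGroup (Gen V) →* Heis := ((psi x₀ hx₀).comp r).comp (mkG f L)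
  set w : ℤ := x₀ f + 4 * n with hw
  have hw0 : w ≠ 0 := by omega
  have hpsi_h : (psi x₀ hx₀ (hel f L n)).a = w ∧ (psi x₀ hx₀ (hel f L n)).b = 0 := by
    have : psi x₀ hx₀ (hel f L n) =
        FreeGroup.lift (img f x₀) gA * FreeGroup.lift (img f x₀) gS ^ (4 * n) := by
      rw [← psi_mk (L := L) x₀ hx₀ gA, ← psi_mk (L := L) x₀ hx₀ gS, ← map_pow, ← map_mul]; rfl
    rw [this]
    have hA : FreeGroup.lift (img f x₀) gA = ⟨x₀ f, 0, 0⟩ := by simp [gA, img]
    have hS : FreeGroup.lift (img f x₀) gS = ⟨1, 0, 0⟩ := by simp [gS, img]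
    rw [hA, hS]
    constructor
    · rw [Heis.mul_a, Heis.pow_a, hw]
      push_cast
      ring
    · rw [Heis.mul_b, Heis.pow_b]
      simp
  have hpsi_T : (psi x₀ hx₀ (mkG f L gT)).a = 0 ∧ (psi x₀ hx₀ (mkG f L gT)).b = 1 := by
    rw [psi_mk]
    simp [gT, img]
  -- divisibility of the first coordinate
  have hdiv : ∀ y : FreeGroup (Gen V), w ∣ (Θ y).a := by
    intro y
    have h1 : r (mkG f L y) ∈ Hn f L n := by rw [← hr]; exact ⟨_, rfl⟩
    have h2 : ∀ g ∈ Hn f L n, w ∣ (psi x₀ hx₀ g).a := by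
      intro g hg
      rw [Hn] at hg
      induction hg using Subgroup.closure_induction with
      | mem g hg =>
        rcases hg with rfl | rfl
        · rw [hpsi_h.1]
        · rw [hpsi_T.1]; exact dvd_zero _
      | one => simp
      | mul a b _ _ ha hb => rw [map_mul, Heis.mul_a]; exact dvd_add ha hb
      | inv a _ ha => rw [map_inv, Heis.inv_a]; exact ha.neg_right
    exact h2 _ h1
  choose X hX using hdiv
  set Y : FreeGroup (Gen V) → ℤ := fun y => (Θ y).b with hY
  -- fixed elements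
  have fixh : Θ (gA * gS ^ (4 * n)) = psi x₀ hx₀ (hel f L n) := by
    change psi x₀ hx₀ (r (mkG f L (gA * gS ^ (4 * n)))) = _
    have : mkG f L (gA * gS ^ (4 * n)) = hel f L n := by rw [map_mul, map_pow]; rfl
    rw [this, hfix _ (Subgroup.subset_closure (by simp))]
  have fixT : Θ gT = psi x₀ hx₀ (mkG f L gT) := by
    change psi x₀ hx₀ (r (mkG f L gT)) = _
    rw [hfix _ (Subgroup.subset_closure (by simp))]
  have XT : X gT = 0 := by
    have h1 := hX gT
    rw [fixT, hpsi_T.1] at h1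
    rcases mul_eq_zero.1 h1.symm with h | h
    · exact absurd h hw0
    · exact h
  have YT : Y gT = 1 := by
    simp only [hY]
    rw [fixT, hpsi_T.2]
  have e1 : X gA + 4 * n * X gS = 1 := by
    have h1 := congrArg Heis.a fixh
    rw [hpsi_h.1, map_mul, map_pow, Heis.mul_a, Heis.pow_a, hX, hX] at h1
    have h2 : w * (X gA + 4 * n * X gS - 1) = 0 := by
      push_cast at h1
      linarith
    rcases mul_eq_zero.1 h2 with h | h
    · exact absurd h hw0
    · linarith
  have e2 : Y gA + 4 * n * Y gS = 0 := by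
    have h1 := congrArg Heis.b fixh
    rw [hpsi_h.2, map_mul, map_pow, Heis.mul_b, Heis.pow_b] at h1
    push_cast at h1
    exact h1
  -- relations
  have hrel : ∀ y ∈ rels f L, Θ y = 1 := by
    intro y hy
    change psi x₀ hx₀ (r (mkG f L y)) = 1
    have : mkG f L y = 1 := PresentedGroup.one_of_mem hy
    rw [this, map_one, map_one]
  have hcomm : ∀ y z : FreeGroup (Gen V), Θ ⁅y, z⁆ = ⟨0, 0, w * (X y * Y z - X z * Y y)⟩ := by
    intro y z
    rw [map_commutatorElement, Heis.comm_eq, hX, hX]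
    ext
    · rfl
    · rfl
    · simp only [hY]
      ring
  have hc0 : ∀ y z : FreeGroup (Gen V), ⁅y, z⁆ ∈ rels f L → X y * Y z = X z * Y y := by
    intro y z h
    have h1 := hrel _ h
    rw [hcomm] at h1
    have h2 := congrArg Heis.c h1
    simp only [Heis.one_c] at h2
    rcases mul_eq_zero.1 h2 with h | h
    · exact absurd h hw0
    · linarith
  have hc2 : ∀ y z y' z' : FreeGroup (Gen V), ⁅y, z⁆ * ⁅y', z'⁆⁻¹ ∈ rels f L →
      X y * Y z - X z * Y y = X y' * Y z' - X z' * Y y' := by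
    intro y z y' z' h
    have h1 := hrel _ h
    rw [map_mul, map_inv, hcomm, hcomm] at h1
    have h2 := congrArg Heis.c h1
    simp only [Heis.one_c, Heis.mul_c, Heis.inv_c] at h2
    have h3 : w * ((X y * Y z - X z * Y y) - (X y' * Y z' - X z' * Y y')) = 0 := by linarith
    rcases mul_eq_zero.1 h3 with h | h
    · exact absurd h hw0
    · linarith
  have rAS := hc0 gA gS IsRel.AS
  have YS : Y gS = 0 := by
    calc Y gS = (X gA + 4 * n * X gS) * Y gS := by rw [e1, one_mul]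
      _ = X gA * Y gS + X gS * (4 * n * Y gS) := by ring
      _ = X gS * (Y gA + 4 * n * Y gS) := by rw [rAS]; ring
      _ = 0 := by rw [e2, mul_zero]
  have YA : Y gA = 0 := by rw [YS] at e2; linarith
  have YP : ∀ v, Y (gP v) = 0 := by
    intro v
    have h1 := hc0 (gP v) gA (IsRel.PA v)
    have h2 := hc0 (gP v) gS (IsRel.PS v)
    rw [YA, mul_zero] at h1
    rw [YS, mul_zero] at h2
    calc Y (gP v) = (X gA + 4 * n * X gS) * Y (gP v) := by rw [e1, one_mul]
      _ = X gA * Y (gP v) + 4 * n * (X gS * Y (gP v)) := by ring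
      _ = 0 := by rw [← h1, ← h2]; ring
  have XQ : ∀ v, X (gQ v) = 0 := by
    intro v
    have h1 := hc0 (gQ v) gT (IsRel.QT v)
    rw [YT, XT] at h1
    linarith
  have XP : ∀ v, X (gP v) = X gS * Y (gQ v) := by
    intro v
    have h1 := hc2 (gP v) gT gS (gQ v) (IsRel.link v)
    rw [YT, XT, XQ] at h1
    linarith
  have XA : X gA = X gS * Y (gQ f) := by
    have h1 := hc2 gA gT gS (gQ f) IsRel.linkA
    rw [YT, XT, XQ] at h1
    linarith
  have hs : X gS * (Y (gQ f) + 4 * n) = 1 := by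
    rw [XA] at e1
    linarith
  refine ⟨fun v => Y (gQ v), ?_, ?_⟩
  · rcases Int.eq_one_or_neg_one_of_mul_eq_one hs with h | h
    · left
      rw [h] at hs
      linarith
    · right
      rw [h] at hs
      linarith
  · intro q hq
    have h1 := hrel _ (IsRel.eqn q hq)
    rw [map_rel] at h1
    have h2 := congrArg Heis.c h1
    simp only [Heis.one_c, hX] at h2
    have hYb : ∀ y, (Θ y).b = Y y := fun y => rfl
    simp only [hYb, YP, XQ, XT, YT, YS, XP] at h2
    have h3 : (w * X gS) * (q.e * (Y (gQ q.i) * Y (gQ q.j)) + q.a * Y (gQ q.k) +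
        q.b * Y (gQ q.l) + q.c * Y (gQ q.m) + q.d) = 0 := by
      linarith
    rcases mul_eq_zero.1 h3 with h | h
    · rcases mul_eq_zero.1 h with h | h
      · exact absurd h hw0
      · rw [h, zero_mul] at hs
        exact absurd hs (by norm_num)
    · exact h

end Pool.Agent.Helper844.Ret
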